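import Pool.Agent.P.MP_382e70_an.Per

open Polynomial Finset

namespace Pool.Agent.Results.MP_382e70_an.HaarBelowTwo

theorem result (ε : ℝ) (hε : 0 < ε) :
    ∃ (a b c : ℕ → ℝ) (P : ℕ → Polynomial ℝ) (g : ℕ → ℕ → ℕ → ℝ),
      (∀ n, 0 < a n) ∧ (∀ n, b n = 0) ∧ c 0 = 0 ∧ (∀ n, 1 ≤ n → 0 < c n) ∧
      (∀ n, a n + b n + c n = 1) ∧
      P 0 = 1 ∧ P 1 = C (1 / a 0) * (X - C (b 0)) ∧
      (∀ n, 1 ≤ n →
        P 1 * P n = C (a n) * P (n + 1) + C (b n) * P n + C (c n) * P (n - 1)) ∧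
      (∀ m n, P m * P n = ∑ k ∈ Icc (max m n - min m n) (m + n), C (g m n k) * P k) ∧
      (∀ m n k, 0 ≤ g m n k) ∧
      0 < g 2 2 0 ∧ 1 / g 2 2 0 < 1 + ε ∧
      (∏ k ∈ Icc 1 (2 - 1), a k) / (∏ k ∈ Icc 1 2, c k) < 1 + ε := by
  set z : ℝ := ε / (8 + 2 * ε) with hzdef
  have hz0 : 0 < z := by positivity
  have hz2 : z < 1 / 2 := by
    rw [hzdef, div_lt_iff₀ (by positivity)]; linarith
  have hz : z < 1 := by linarith
  have h1 : 0 < 1 - z := by linarith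
  have hzε : z * (8 + 2 * ε) = ε := by rw [hzdef]; field_simp
  have key : ((1 + z) / (1 - z)) ^ 2 < 1 + ε := by
    rw [div_pow, div_lt_iff₀ (by positivity)]
    nlinarith [mul_pos hz0 hz0, mul_pos hε (mul_pos hz0 hz0)]
  obtain ⟨a, c, P, g, ha, hc0, hc, hac, hP0, hP1, hrec, hlin, hg, hg2, hh⟩ :=
    Pool.Agent.P.MP_382e70_an.family z hz0 hz
  have ha0 : a 0 = 1 := by have := hac 0; linarith
  refine ⟨a, fun _ => 0, c, P, g, ha, fun _ => rfl, hc0, hc, fun n => by simpa using hac n, hP0,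
    by simp [ha0, hP1], fun n hn => by simpa [hP1] using hrec n hn, hlin, hg, ?_, ?_, ?_⟩
  · rw [hg2]; positivity
  · rw [hg2, one_div, ← inv_pow, inv_div]; exact key
  · rw [show Icc 1 (2 - 1) = {1} from by decide, show Icc 1 2 = {1, 2} from by decide]
    rw [Finset.prod_singleton, Finset.prod_pair (by norm_num), hh]
    exact key

end Pool.Agent.Results.MP_382e70_an.HaarBelowTwo
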